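import Pool.Agent.helper32.EXD.Facts
import Pool.Agent.helper32.EXA.Facts
import Pool.Agent.helper32.EXC.Spec11

/-!
# Project TRI (MP_561ff4_al): `D₄(q)` with all automorphisms (triality), `r = 5, 7`: definitions and the explicit data

All finite checks are done here. `C4` is the Cartan matrix of type `D₄` (centre: node 1), `lt4 k` its 24 roots. The vectors of the 28-dimensional Lie algebra
`Lm C4 K` have coordinates: `h ∈ K⁴` and the 24 coefficients. Words are lists of pairs (number of the root, `t ∈ ℤ`); in a word the letter `(k, t)` stands for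
`x_(lt4 k)(t c^χ(lt4 k))`, `c` a scalar, `χ` an integral character: the action on the coordinates `(h, v_i c^χ(lt4 i))` does not depend on `c`.
-/

set_option autoImplicit false

open Finset

namespace Pool.Agent.TRI

open Pool.Agent.EXC

/-! ## General notions -/

/-- the class of `y` generates with `k` elements a group with an element `Z` whose order is divisible by `r` -/
def HO (r k : ℕ) {G : Type} [Group G] (y : G) : Prop :=
  ∃ (g : Fin k → G) (Z : G), Z ∈ Subgroup.closure (Set.range fun i => g i * y * (g i)⁻¹) ∧ ∀ N : ℕ, Z ^ N = 1 → r ∣ N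

/-- the Cartan matrix of type `D₄` -/
abbrev C4 : Matrix (Fin 4) (Fin 4) ℤ := CartanMatrix.D 4

theorem C4_eq : C4 = !![2, -1, 0, 0; -1, 2, -1, -1; 0, -1, 2, 0; 0, -1, 0, 2] := by decide +kernel

theorem C4_ip (v w : Fin 4 → ℤ) : ip C4 v w = 2 * (v 0 * w 0 + v 1 * w 1 + v 2 * w 2 + v 3 * w 3) - (v 0 * w 1 + v 1 * w 0) -
    (v 1 * w 2 + v 2 * w 1) - (v 1 * w 3 + v 3 * w 1) := by
  rw [C4_eq]
  simp [ip, Fin.sum_univ_four]
  ring

instance iC4 : IsC C4 where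
  symm := by decide +kernel
  diag := by decide +kernel
  off := by decide +kernel
  pos := by
    intro v hv
    have e : 2 * ip C4 v v = (2 * v 0 - v 1) ^ 2 + (2 * v 2 - v 1) ^ 2 + (2 * v 3 - v 1) ^ 2 + v 1 ^ 2 := by
      rw [C4_ip]; ring
    by_contra hn
    have h0 : v 1 = 0 := by nlinarith [sq_nonneg (2 * v 0 - v 1), sq_nonneg (2 * v 2 - v 1), sq_nonneg (2 * v 3 - v 1), sq_nonneg (v 1)]
    rw [h0] at e
    have h1 : v 0 = 0 := by nlinarith [sq_nonneg (v 0), sq_nonneg (v 2), sq_nonneg (v 3)]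
    have h2 : v 2 = 0 := by nlinarith [sq_nonneg (v 0), sq_nonneg (v 2), sq_nonneg (v 3)]
    have h3 : v 3 = 0 := by nlinarith [sq_nonneg (v 0), sq_nonneg (v 2), sq_nonneg (v 3)]
    exact hv (funext fun i => by fin_cases i <;> simp [h0, h1, h2, h3])

/-- the highest root -/
def th4 : Fin 4 → ℤ := ![1, 2, 1, 1]

/-- the dummy index -/
def dm4 : Fin 5 → Fin 4 := fun _ => 0

theorem D4_con : Conn C4 Finset.univ := by
  unfold Conn
  decide +kernel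

theorem D4_IsD : Pool.Agent.EXD.IsD C4 1 th4 dm4 where
  th2 := by decide +kernel
  thd := by decide +kernel
  con := D4_con
  ed := ⟨0, 1, by decide +kernel⟩
  dm := rfl

/-- every root has a root with product `-1` -/
theorem hb4 : ∀ α, ip C4 α α = 2 → ∃ β, ip C4 β β = 2 ∧ ip C4 α β = -1 :=
  (Pool.Agent.EXD.f_NBR 4 C4 1 th4 dm4 D4_IsD).1

/-- the chain of nodes of type `A₃` -/
def ch3 : Fin 3 → Fin 4 := ![0, 1, 2]

theorem D4_IsA : Pool.Agent.EXA.IsA C4 1 th4 ch3 where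
  hb := hb4
  inc := by decide +kernel
  ch := by decide +kernel
  dm := ⟨rfl, rfl⟩

/-- `y = x_a(1) x_b(1)` -/
def Y4 {F : Type} [Field F] (a b : Lm C4 F) (y : EG C4 F) : Prop :=
  ∃ g h : EG C4 F, IsX C4 a 1 (g : Lm C4 F ≃ₗ[F] Lm C4 F) ∧ IsX C4 b 1 (h : Lm C4 F ≃ₗ[F] Lm C4 F) ∧ y = g * h

/-- the value of the character `χ` -/
def cv4 (χ v : Fin 4 → ℤ) : ℤ := ∑ i, χ i * v i

/-! ## The data -/

/-- the 24 roots -/
def lt4 : Fin 24 → Fin 4 → ℤ :=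
  ![![0, 0, 0, 1], ![0, 0, 1, 0], ![0, 1, 0, 0], ![1, 0, 0, 0], ![0, 1, 0, 1], ![0, 1, 1, 0],
    ![1, 1, 0, 0], ![0, 1, 1, 1], ![1, 1, 0, 1], ![1, 1, 1, 0], ![1, 1, 1, 1], ![1, 2, 1, 1],
    ![0, 0, 0, -1], ![0, 0, -1, 0], ![0, -1, 0, 0], ![-1, 0, 0, 0], ![0, -1, 0, -1], ![0, -1, -1, 0],
    ![-1, -1, 0, 0], ![0, -1, -1, -1], ![-1, -1, 0, -1], ![-1, -1, -1, 0], ![-1, -1, -1, -1], ![-1, -2, -1, -1]]

/-- representatives of the pairs `(θ, β)`: `bt4 j` for the types `-2, -1, 0, 0, 0, 1` -/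
def bt4 : Fin 6 → Fin 4 → ℤ := ![![-1, -2, -1, -1], ![0, -1, 0, 0], ![1, 0, 0, 0], ![0, 0, 1, 0], ![0, 0, 0, 1], ![1, 1, 1, 1]]

/-- the letter `k` maps `E (lt4 i)` to `E (lt4 i) + t ε E (lt4 j)` for `tb4 k j = (i, ε)`, `ε ≠ 0`; `tb4 k k = (k + 12, 0)` -/
def tb4 : Fin 24 → Fin 24 → Fin 24 × ℤ :=
  ![![(12, 0), (0, 0), (0, 0), (0, 0), (2, 1), (0, 0), (0, 0), (5, 1), (6, 1), (0, 0), (9, 1), (0, 0), (0, 0), (0, 0), (16, -1), (0, 0), (0, 0), (19, -1), (20, -1), (0, 0), (0, 0), (22, -1), (0, 0), (0, 0)],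
    ![(0, 0), (13, 0), (0, 0), (0, 0), (0, 0), (2, 1), (0, 0), (4, 1), (0, 0), (6, 1), (8, 1), (0, 0), (0, 0), (0, 0), (17, -1), (0, 0), (19, -1), (0, 0), (21, -1), (0, 0), (22, -1), (0, 0), (0, 0), (0, 0)],
    ![(0, 0), (0, 0), (14, 0), (0, 0), (0, -1), (1, -1), (3, 1), (0, 0), (0, 0), (0, 0), (0, 0), (10, -1), (16, 1), (17, 1), (0, 0), (18, -1), (0, 0), (0, 0), (0, 0), (0, 0), (0, 0), (0, 0), (23, 1), (0, 0)],
    ![(0, 0), (0, 0), (0, 0), (15, 0), (0, 0), (0, 0), (2, -1), (0, 0), (4, -1), (5, -1), (7, -1), (0, 0), (0, 0), (0, 0), (18, 1), (0, 0), (20, 1), (21, 1), (0, 0), (22, 1), (0, 0), (0, 0), (0, 0), (0, 0)],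
    ![(14, -1), (0, 0), (12, 1), (0, 0), (16, 0), (0, 0), (0, 0), (1, -1), (3, 1), (0, 0), (0, 0), (9, 1), (0, 0), (19, 1), (0, 0), (20, -1), (0, 0), (0, 0), (0, 0), (0, 0), (0, 0), (23, -1), (0, 0), (0, 0)],
    ![(0, 0), (14, -1), (13, 1), (0, 0), (0, 0), (17, 0), (0, 0), (0, -1), (0, 0), (3, 1), (0, 0), (8, 1), (19, 1), (0, 0), (0, 0), (21, -1), (0, 0), (0, 0), (0, 0), (0, 0), (23, -1), (0, 0), (0, 0), (0, 0)],
    ![(0, 0), (0, 0), (15, -1), (14, 1), (0, 0), (0, 0), (18, 0), (0, 0), (0, -1), (1, -1), (0, 0), (7, 1), (20, 1), (21, 1), (0, 0), (0, 0), (0, 0), (0, 0), (0, 0), (23, -1), (0, 0), (0, 0), (0, 0), (0, 0)],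
    ![(17, -1), (16, -1), (0, 0), (0, 0), (13, 1), (12, 1), (0, 0), (19, 0), (0, 0), (0, 0), (3, 1), (6, -1), (0, 0), (0, 0), (0, 0), (22, -1), (0, 0), (0, 0), (23, 1), (0, 0), (0, 0), (0, 0), (0, 0), (0, 0)],
    ![(18, -1), (0, 0), (0, 0), (16, 1), (15, -1), (0, 0), (12, 1), (0, 0), (20, 0), (0, 0), (1, -1), (5, -1), (0, 0), (22, 1), (0, 0), (0, 0), (0, 0), (23, 1), (0, 0), (0, 0), (0, 0), (0, 0), (0, 0), (0, 0)],
    ![(0, 0), (18, -1), (0, 0), (17, 1), (0, 0), (15, -1), (13, 1), (0, 0), (0, 0), (21, 0), (0, -1), (4, -1), (22, 1), (0, 0), (0, 0), (0, 0), (23, 1), (0, 0), (0, 0), (0, 0), (0, 0), (0, 0), (0, 0), (0, 0)],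
    ![(21, -1), (20, -1), (0, 0), (19, 1), (0, 0), (0, 0), (0, 0), (15, -1), (13, 1), (12, 1), (22, 0), (2, 1), (0, 0), (0, 0), (23, -1), (0, 0), (0, 0), (0, 0), (0, 0), (0, 0), (0, 0), (0, 0), (0, 0), (0, 0)],
    ![(0, 0), (0, 0), (22, 1), (0, 0), (21, -1), (20, -1), (19, -1), (18, 1), (17, 1), (16, 1), (14, -1), (23, 0), (0, 0), (0, 0), (0, 0), (0, 0), (0, 0), (0, 0), (0, 0), (0, 0), (0, 0), (0, 0), (0, 0), (0, 0)],
    ![(0, 0), (0, 0), (4, -1), (0, 0), (0, 0), (7, -1), (8, -1), (0, 0), (0, 0), (10, -1), (0, 0), (0, 0), (0, 0), (0, 0), (0, 0), (0, 0), (14, 1), (0, 0), (0, 0), (17, 1), (18, 1), (0, 0), (21, 1), (0, 0)],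
    ![(0, 0), (0, 0), (5, -1), (0, 0), (7, -1), (0, 0), (9, -1), (0, 0), (10, -1), (0, 0), (0, 0), (0, 0), (0, 0), (1, 0), (0, 0), (0, 0), (0, 0), (14, 1), (0, 0), (16, 1), (0, 0), (18, 1), (20, 1), (0, 0)],
    ![(4, 1), (5, 1), (0, 0), (6, -1), (0, 0), (0, 0), (0, 0), (0, 0), (0, 0), (0, 0), (11, 1), (0, 0), (0, 0), (0, 0), (2, 0), (0, 0), (12, -1), (13, -1), (15, 1), (0, 0), (0, 0), (0, 0), (0, 0), (22, -1)],
    ![(0, 0), (0, 0), (6, 1), (0, 0), (8, 1), (9, 1), (0, 0), (10, 1), (0, 0), (0, 0), (0, 0), (0, 0), (0, 0), (0, 0), (0, 0), (3, 0), (0, 0), (0, 0), (14, -1), (0, 0), (16, -1), (17, -1), (19, -1), (0, 0)],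
    ![(0, 0), (7, 1), (0, 0), (8, -1), (0, 0), (0, 0), (0, 0), (0, 0), (0, 0), (11, -1), (0, 0), (0, 0), (2, -1), (0, 0), (0, 1), (0, 0), (4, 0), (0, 0), (0, 0), (13, -1), (15, 1), (0, 0), (0, 0), (21, 1)],
    ![(7, 1), (0, 0), (0, 0), (9, -1), (0, 0), (0, 0), (0, 0), (0, 0), (11, -1), (0, 0), (0, 0), (0, 0), (0, 0), (2, -1), (1, 1), (0, 0), (0, 0), (5, 0), (0, 0), (12, -1), (0, 0), (15, 1), (0, 0), (20, 1)],
    ![(8, 1), (9, 1), (0, 0), (0, 0), (0, 0), (0, 0), (0, 0), (11, -1), (0, 0), (0, 0), (0, 0), (0, 0), (0, 0), (0, 0), (3, -1), (2, 1), (0, 0), (0, 0), (6, 0), (0, 0), (12, -1), (13, -1), (0, 0), (19, 1)],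
    ![(0, 0), (0, 0), (0, 0), (10, -1), (0, 0), (0, 0), (11, 1), (0, 0), (0, 0), (0, 0), (0, 0), (0, 0), (5, -1), (4, -1), (0, 0), (0, 0), (1, 1), (0, 1), (0, 0), (7, 0), (0, 0), (0, 0), (15, 1), (18, -1)],
    ![(0, 0), (10, 1), (0, 0), (0, 0), (0, 0), (11, 1), (0, 0), (0, 0), (0, 0), (0, 0), (0, 0), (0, 0), (6, -1), (0, 0), (0, 0), (4, 1), (3, -1), (0, 0), (0, 1), (0, 0), (8, 0), (0, 0), (13, -1), (17, -1)],
    ![(10, 1), (0, 0), (0, 0), (0, 0), (11, 1), (0, 0), (0, 0), (0, 0), (0, 0), (0, 0), (0, 0), (0, 0), (0, 0), (6, -1), (0, 0), (5, 1), (0, 0), (3, -1), (1, 1), (0, 0), (0, 0), (9, 0), (12, -1), (16, -1)],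
    ![(0, 0), (0, 0), (11, -1), (0, 0), (0, 0), (0, 0), (0, 0), (0, 0), (0, 0), (0, 0), (0, 0), (0, 0), (9, -1), (8, -1), (0, 0), (7, 1), (0, 0), (0, 0), (0, 0), (3, -1), (1, 1), (0, 1), (10, 0), (14, 1)],
    ![(0, 0), (0, 0), (0, 0), (0, 0), (0, 0), (0, 0), (0, 0), (0, 0), (0, 0), (0, 0), (0, 0), (0, 0), (0, 0), (0, 0), (10, 1), (0, 0), (9, -1), (8, -1), (7, -1), (6, 1), (5, 1), (4, 1), (2, -1), (11, 0)]]

/-- the inverse word -/
def wi4 (l : List (Fin 24 × ℤ)) : List (Fin 24 × ℤ) := (l.map fun p => (p.1, -p.2)).reverse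

/-- the product of the conjugates of the word `y` under the words of `hs` -/
def cw4 (y : List (Fin 24 × ℤ)) (hs : List (List (Fin 24 × ℤ))) : List (Fin 24 × ℤ) := hs.flatMap fun h => h ++ y ++ wi4 h

/-- the second root of the pair: types `-1, 0, 0, 0` for `r = 7`, then for `r = 5` -/
def kd4 : Fin 8 → Fin 24 := ![14, 3, 1, 0, 14, 3, 1, 0]

/-- the sign -/
def k4 : Fin 8 → ℤ := ![1, -1, -1, -1, 1, -1, -1, -1]

/-- the primes -/
def r4 : Fin 8 → ℕ := ![7, 7, 7, 7, 5, 5, 5, 5]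

/-- the index of the representative -/
def j4 : Fin 8 → Fin 6 := ![1, 2, 3, 4, 1, 2, 3, 4]

/-- the characters -/
def ch4 : Fin 8 → Fin 4 → ℤ := ![![2, -1, 0, 0], ![1, 0, -1, 0], ![-1, 0, 1, 0], ![-1, 0, 0, 1], ![2, -1, 0, 0], ![1, 0, -1, 0], ![-1, 0, 1, 0], ![-1, 0, 0, 1]]

/-- the words `h_i` -/
def hs4 : Fin 8 → List (List (Fin 24 × ℤ)) :=
  ![[[], [(8, 1), (18, 1), (23, 1)], [(22, -1), (12, 1)]],
    [[], [(22, 1), (21, 1), (19, 1), (7, 1)], [(20, 1), (4, -1)]],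
    [[], [(22, 1), (21, 1), (20, -1), (8, -1)], [(19, -1), (4, -1)]],
    [[], [(22, 1), (20, 1), (21, -1), (9, -1)], [(19, -1), (5, -1)]],
    [[], [(6, 1), (23, -1), (2, 1), (18, 1)]],
    [[], [(20, 1), (21, -1), (23, 1)]],
    [[], [(19, -1), (21, -1), (23, 1)]],
    [[], [(19, -1), (20, -1), (23, 1)]]]

/-- the words of the three root elements of type `-2` (`T_i = w_i x_base(s) w_i⁻¹`) -/
def wd4 : Fin 3 → List (Fin 24 × ℤ) := ![[(11, 1)], [(1, -1)], [(3, -1), (7, -1), (5, 2)]]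

/-- the base letters -/
def bs4 : Fin 3 → Fin 24 := ![20, 17, 13]

/-- the parameters of the base letters -/
def sb4 : Fin 3 → ℤ := ![-1, 1, 1]

/-- the word of the root element `T_i` -/
def tw4 (i : Fin 3) : List (Fin 24 × ℤ) := wd4 i ++ [(bs4 i, sb4 i)] ++ wi4 (wd4 i)

/-- the word of `T_0 T_1 T_2` -/
def zt4 : List (Fin 24 × ℤ) := tw4 0 ++ tw4 1 ++ tw4 2

/-- the coordinate `i` of `[h, E (lt4 k)]` -/
def ec4 : Fin 24 → Fin 4 → ℤ :=
  ![![0, -1, 0, 2], ![0, -1, 2, 0], ![-1, 2, -1, -1], ![2, -1, 0, 0], ![-1, 1, -1, 1], ![-1, 1, 1, -1],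
    ![1, 1, -1, -1], ![-1, 0, 1, 1], ![1, 0, -1, 1], ![1, 0, 1, -1], ![1, -1, 1, 1], ![0, 1, 0, 0],
    ![0, 1, 0, -2], ![0, 1, -2, 0], ![1, -2, 1, 1], ![-2, 1, 0, 0], ![1, -1, 1, -1], ![1, -1, -1, 1],
    ![-1, -1, 1, 1], ![1, 0, -1, -1], ![-1, 0, 1, -1], ![-1, 0, -1, 1], ![-1, 1, -1, -1], ![0, -1, 0, 0]]

/-- the action of a letter on the coordinates -/
def st4 {R : Type} [CommRing R] (k : Fin 24) (t : R) (s : (Fin 4 → R) × (Fin 24 → R)) : (Fin 4 → R) × (Fin 24 → R) :=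
  (fun i => s.1 i - (if lt4 k i = 0 then 0 else t * s.2 (k + 12) * (lt4 k i : R)),
    fun j => s.2 j + (if j = k then t * t * s.2 (k + 12) - t * ((if ec4 k 0 = 0 then 0 else (ec4 k 0 : R) * s.1 0) +
      (if ec4 k 1 = 0 then 0 else (ec4 k 1 : R) * s.1 1) + (if ec4 k 2 = 0 then 0 else (ec4 k 2 : R) * s.1 2) +
      (if ec4 k 3 = 0 then 0 else (ec4 k 3 : R) * s.1 3)) else if (tb4 k j).2 = 0 then 0 else t * ((tb4 k j).2 : R) * s.2 (tb4 k j).1))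

/-- the same over `ℤ`, without casts (written so that the kernel evaluates it quickly) -/
def sz4 (k : Fin 24) (t : ℤ) (s : (Fin 4 → ℤ) × (Fin 24 → ℤ)) : (Fin 4 → ℤ) × (Fin 24 → ℤ) :=
  (fun i => match tb4 k k with
    | (m, _) => s.1 i - (if lt4 k i = 0 then 0 else t * s.2 m * lt4 k i),
    fun j => match tb4 k j with
    | (m, ε) => s.2 j + (if j = k then t * t * s.2 m - t * ((if ec4 k 0 = 0 then 0 else ec4 k 0 * s.1 0) +
      (if ec4 k 1 = 0 then 0 else ec4 k 1 * s.1 1) + (if ec4 k 2 = 0 then 0 else ec4 k 2 * s.1 2) +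
      (if ec4 k 3 = 0 then 0 else ec4 k 3 * s.1 3)) else if ε = 0 then 0 else t * ε * s.2 m))

/-- the action of a word on integer coordinates (the first letter acts last) -/
def az4 (l : List (Fin 24 × ℤ)) (s : (Fin 4 → ℤ) × (Fin 24 → ℤ)) : (Fin 4 → ℤ) × (Fin 24 → ℤ) := l.foldr (fun p s => sz4 p.1 p.2 s) s

/-- the vector `E θ` -/
def e4v : (Fin 4 → ℤ) × (Fin 24 → ℤ) := (fun _ => 0, fun j => if j = 11 then 1 else 0)

/-! ## The finite checks -/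

theorem lt4_root : ∀ k, ip C4 (lt4 k) (lt4 k) = 2 ∧ lt4 (k + 12) = -lt4 k := by decide +kernel

theorem tb4_diag : ∀ k, tb4 k k = (k + 12, 0) := by decide +kernel

theorem ec4_spec : ∀ k i, ec4 k i = ip C4 (lt4 k) (sr i) := by decide +kernel

theorem lt4_inj : ∀ i j, lt4 i = lt4 j → i = j := by decide +kernel

theorem lt4_th : lt4 11 = th4 ∧ (∀ j, lt4 (kd4 j) = bt4 (j4 j)) := by decide +kernel

/-- the table `tb4` is correct -/
theorem tb4_spec : ∀ k j, ((tb4 k j).2 ≠ 0 ∧ ip C4 (lt4 k) (lt4 (tb4 k j).1) = -1 ∧ lt4 j = lt4 k + lt4 (tb4 k j).1 ∧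
      sg C4 (lt4 k) (lt4 (tb4 k j).1) = (tb4 k j).2) ∨
    ((tb4 k j).2 = 0 ∧ ip C4 (lt4 k) (lt4 j - lt4 k) ≠ -1) := by decide +kernel

theorem bt4_spec : ∀ j, ip C4 (bt4 j) (bt4 j) = 2 ∧ ip C4 th4 (bt4 j) = ![-2, -1, 0, 0, 0, 1] j := by decide +kernel

theorem ch4_spec : ∀ j, cv4 (ch4 j) th4 = 0 ∧ cv4 (ch4 j) (lt4 (kd4 j)) = 1 ∧ (k4 j = 1 ∨ k4 j = -1) ∧ (r4 j).Prime := by
  intro j
  fin_cases j <;> exact ⟨by decide +kernel, by decide +kernel, by decide +kernel, by simp [r4]; norm_num⟩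

theorem hs4_len : ∀ j, (hs4 j).length = if r4 j = 7 then 3 else 2 := by decide +kernel

set_option maxRecDepth 100000 in
/-- the power `r` of the product of the conjugates fixes `E θ` -/
theorem zw4_r : ∀ j, (az4 (cw4 [(11, 1), (kd4 j, k4 j)] (hs4 j)))^[r4 j] e4v = e4v := by decide +kernel

/-- the coordinate `i < 4` of the `h`-part, or the coefficient `i - 4` -/
def co4 (s : (Fin 4 → ℤ) × (Fin 24 → ℤ)) (i : Fin 4 ⊕ Fin 24) : ℤ := Sum.elim s.1 s.2 i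

set_option maxRecDepth 100000 in
/-- and the product moves `E θ` -/
theorem zw4_1 : ∀ j, ∃ i, co4 (az4 (cw4 [(11, 1), (kd4 j, k4 j)] (hs4 j)) e4v) i - co4 e4v i = 1 ∨
    co4 (az4 (cw4 [(11, 1), (kd4 j, k4 j)] (hs4 j)) e4v) i - co4 e4v i = -1 := by decide +kernel

set_option maxRecDepth 100000 in
theorem zt4_7 : (az4 zt4)^[7] e4v = e4v ∧ ∃ i, co4 (az4 zt4 e4v) i - co4 e4v i = 1 ∨ co4 (az4 zt4 e4v) i - co4 e4v i = -1 := by
  decide +kernel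

/-- the vectors `w_i E (base)` as lists -/
def cl4 (i : Fin 3) : List ((Fin 4 → ℤ) × ℤ) := (wd4 i).foldr (fun p l => xr C4 (lt4 p.1) p.2 l) [(lt4 (bs4 i), 1)]

/-- all entries of a list are roots with products `≥ -1` with `α` -/
def okl4 (α : Fin 4 → ℤ) (l : List ((Fin 4 → ℤ) × ℤ)) : Prop := ∀ p ∈ l, ip C4 p.1 p.1 = 2 ∧ -1 ≤ ip C4 α p.1

instance (α : Fin 4 → ℤ) (l : List ((Fin 4 → ℤ) × ℤ)) : Decidable (okl4 α l) := by unfold okl4; infer_instance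

/-- in the computation of `cl4` all products are `≥ -1` (for every tail of a word) -/
theorem cl4_ok : ∀ i : Fin 3, ∀ j : Fin 3, ∀ p ∈ ((wd4 i).drop j).head?,
    okl4 (lt4 p.1) (((wd4 i).drop (j + 1)).foldr (fun p l => xr C4 (lt4 p.1) p.2 l) [(lt4 (bs4 i), 1)]) := by
  decide +kernel

theorem cl4_root : ∀ i : Fin 3, ∀ p ∈ cl4 i, ip C4 p.1 p.1 = 2 := by decide +kernel

theorem fml4 : sb4 0 * sb4 1 * fml (cl4 0) (cl4 1) = 1 := by decide +kernel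

theorem cfl4 : cfl (cl4 0) ![0, 1, 0, 1] = 0 ∧ cfl (cl4 2) ![0, 1, 0, 1] = -1 := by decide +kernel

section data
variable {K : Type} [Field K]

/-- the vector with the coordinates `h`, `v` -/
noncomputable def em4 (h : Fin 4 → K) (v : Fin 24 → K) : Lm C4 K := ((h, 0) : Lm C4 K) + ∑ i, v i • (E C4 (lt4 i) : Lm C4 K)

/-- the vector with the integral coordinates `s`, scaled by `c^χ` -/
noncomputable def ez4 (χ : Fin 4 → ℤ) (c : K) (s : (Fin 4 → ℤ) × (Fin 24 → ℤ)) : Lm C4 K :=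
  em4 (fun i => (s.1 i : K)) (fun i => (s.2 i : K) * c ^ (cv4 χ (lt4 i)))

/-- the element of the group of a word -/
noncomputable def gw4 (χ : Fin 4 → ℤ) (c : K) (l : List (Fin 24 × ℤ)) : Lm C4 K ≃ₗ[K] Lm C4 K :=
  (l.map fun p => XG C4 (lt4 p.1) ((p.2 : K) * c ^ (cv4 χ (lt4 p.1)))).prod

variable (K) in
/-- the root vectors of the elements `T_i` -/
noncomputable def c4 (i : Fin 3) : Lm C4 K := (sb4 i : K) • gw4 0 (1 : K) (wd4 i) (E C4 (lt4 (bs4 i)))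

end data

end Pool.Agent.TRI
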