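import Pool.Agent.helper14.TRI.RL4
import Pool.Agent.helper22.TRI.TO4
import Pool.Agent.helper8.TRI.PR4
import Pool.Agent.helper42.TRI.CN4
import Pool.Agent.helper72.TRI.YC4
import Pool.Agent.helper29.TRI.HC4
import Pool.Agent.helper72.TRI.FT4
import Pool.Agent.helper89.TRI.LA4
import Pool.Agent.helper10.TRI.EM4
import Pool.Agent.helper41.TRI.WA4
import Pool.Agent.helper49.TRI.OR4
import Pool.Agent.helper98.TRI.Z4G
import Pool.Agent.helper79.TRI.Z4A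
import Pool.Agent.helper87.TRI.BX4
import Pool.Agent.helper64.TRI.TE4
import Pool.Agent.helper61.TRI.CV4
import Pool.Agent.helper9.TRI.Z42
import Pool.Agent.helper68.TRI.Z4B
import Pool.Agent.helper27.TRI.M5A
import Pool.Agent.helper13.TRI.M5B
import Pool.Agent.helper63.TRI.C5Y
import Pool.Agent.helper52.TRI.TRF

/-!
# Project TRI (MP_561ff4_al): all rows
-/

set_option autoImplicit false

open Finset

namespace Pool.Agent.TRI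

open Pool.Agent.EXC

theorem t_RL4 : Pool.Agent.TRI.RL4_stmt := Pool.Agent.TRI.RL4

theorem t_TO4 : Pool.Agent.TRI.TO4_stmt := Pool.Agent.TRI.TO4

theorem t_PR4 : Pool.Agent.TRI.PR4_stmt := Pool.Agent.TRI.PR4 Pool.Agent.TRI.t_RL4 Pool.Agent.TRI.t_TO4

theorem t_CN4 : Pool.Agent.TRI.CN4_stmt := Pool.Agent.TRI.CN4 Pool.Agent.TRI.t_PR4

theorem t_YC4 : Pool.Agent.TRI.YC4_stmt := Pool.Agent.TRI.YC4

theorem t_HC4 : Pool.Agent.TRI.HC4_stmt := Pool.Agent.TRI.HC4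

theorem t_FT4 : Pool.Agent.TRI.FT4_stmt := Pool.Agent.TRI.FT4 Pool.Agent.TRI.t_YC4

theorem t_LA4 : Pool.Agent.TRI.LA4_stmt := Pool.Agent.TRI.LA4

theorem t_EM4 : Pool.Agent.TRI.EM4_stmt := Pool.Agent.TRI.EM4

theorem t_WA4 : Pool.Agent.TRI.WA4_stmt := Pool.Agent.TRI.WA4 Pool.Agent.TRI.t_LA4

theorem t_OR4 : Pool.Agent.TRI.OR4_stmt := Pool.Agent.TRI.OR4 Pool.Agent.TRI.t_WA4 Pool.Agent.TRI.t_EM4

theorem t_Z4G : Pool.Agent.TRI.Z4G_stmt := Pool.Agent.TRI.Z4G Pool.Agent.TRI.t_WA4 Pool.Agent.TRI.t_OR4 Pool.Agent.TRI.t_HC4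

theorem t_Z4A : Pool.Agent.TRI.Z4A_stmt := Pool.Agent.TRI.Z4A Pool.Agent.TRI.t_PR4 Pool.Agent.TRI.t_Z4G

theorem t_BX4 : Pool.Agent.TRI.BX4_stmt := Pool.Agent.TRI.BX4 Pool.Agent.TRI.t_PR4

theorem t_TE4 : Pool.Agent.TRI.TE4_stmt := Pool.Agent.TRI.TE4 Pool.Agent.TRI.t_WA4

theorem t_CV4 : Pool.Agent.TRI.CV4_stmt := Pool.Agent.TRI.CV4

theorem t_Z42 : Pool.Agent.TRI.Z42_stmt := Pool.Agent.TRI.Z42 Pool.Agent.TRI.t_TE4 Pool.Agent.TRI.t_CV4 Pool.Agent.TRI.t_OR4 Pool.Agent.TRI.t_WA4 Pool.Agent.TRI.t_BX4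

theorem t_Z4B : Pool.Agent.TRI.Z4B_stmt := Pool.Agent.TRI.Z4B Pool.Agent.TRI.t_Z42 Pool.Agent.TRI.t_CN4

theorem t_M5A : Pool.Agent.TRI.M5A_stmt := Pool.Agent.TRI.M5A

theorem t_M5B : Pool.Agent.TRI.M5B_stmt := Pool.Agent.TRI.M5B

theorem t_C5Y : Pool.Agent.TRI.C5Y_stmt := Pool.Agent.TRI.C5Y Pool.Agent.TRI.t_PR4 Pool.Agent.TRI.t_M5A Pool.Agent.TRI.t_M5B Pool.Agent.TRI.t_HC4

theorem t_TRF : Pool.Agent.TRI.TRF_stmt := Pool.Agent.TRI.TRF Pool.Agent.TRI.t_FT4 Pool.Agent.TRI.t_Z4A Pool.Agent.TRI.t_Z4B Pool.Agent.TRI.t_C5Y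

end Pool.Agent.TRI
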