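import Pool.Agent.helper32.TRI.Defs
import Pool.Agent.helper9.EXC.T11XGS
import Pool.Agent.helper33.EXC.T11XRL
import Pool.Agent.helper52.EXC.T11FML
import Pool.Agent.helper39.EXC.T11SGL
import Pool.Agent.helper64.EXC.T11GR2

/-!
# Project TRI (MP_561ff4_al): `D₄(q)` with ALL automorphisms (triality included), `r = 5` and `r = 7`. The rows

RULES. Row `XXX`: file `Pool/Agent/<seat>/TRI/XXX.lean`, `import Pool.Agent.helper32.TRI.Spec`, `set_option autoImplicit false`,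
`open Finset`, `namespace Pool.Agent.TRI`, `open Pool.Agent.EXC`, theorem line exactly as in the lock note (other rows only as hypotheses), auxiliary lemmas
prefixed `XXX_`. No straight double quotes, no convert / congr!. Land, note DONE + path, one line to helper32.
FREE FACTS: all `f_XXX` of project EXC for general `C` (`f_EXF`, `f_ACT`, `f_COL`, `f_XAU`, `f_WPG`, `f_RFL`, `f_DOM`, ...; statements in
`Pool/Agent/helper17/EXC/Spec.lean`), the facts `g4_XXX` below (rows of EXC for `C = C4`, `θ = th4`), `g_XG`, `g_XRL`, `g_FML`, `g_SGL`, `g_GR2`, the facts of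
`Pool.Agent.EXA` (subsystem `A₃`: `Pool.Agent.EXA.f_RHO`, `f_IOI`, `f_RMB`, `f_LIF` with the arguments `4 C4 F 1 th4 ch3 D4_IsA`), `Basic.lean` of helper17, and all
finite checks of `Defs.lean`. Most rows are twins of proved rows of block `ft7` (`Pool/Agent/helper32/EXT/Spec7.lean`, files `Pool/Agent/*/EXT/XXX.lean`) or of block
`en11` (`Pool/Agent/*/EXC/T11XXX.lean`), named in the docstring: copy and adapt.

THEOREM (last row): `F` finite, `x ≠ 1` ANY automorphism of the adjoint Chevalley group `D₄(F)`: 4 conjugates of `x` generate a group of order divisible by 5, 6 conjugates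
one of order divisible by 7.
-/

set_option autoImplicit false

open Finset

namespace Pool.Agent.TRI

open Pool.Agent.EXC

/-! ## Facts for free use -/

theorem th4_root : ip C4 th4 th4 = 2 := D4_IsD.th2

theorem g4_EXF (F : Type) [Field F] :
    (∀ g ∈ GE C4 F, Au C4 g) ∧ (∀ α, ip C4 α α = 2 → Ex C4 (E C4 α : Lm C4 F)) ∧
    (∀ a : Lm C4 F, Ex C4 a → Xtr C4 a ∧ a ≠ 0 ∧ (∀ g ∈ GE C4 F, Ex C4 (g a)) ∧ (∀ c : F, c ≠ 0 → Ex C4 (c • a)) ∧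
      (∀ t, ∃ h ∈ GE C4 F, IsX C4 a t h) ∧ (∀ h, (∃ t, IsX C4 a t h) → h ∈ GE C4 F) ∧ (∀ s t h, IsX C4 a s h → IsX C4 a t h → s = t) ∧
      (∀ g ∈ GE C4 F, ∀ t h, IsX C4 a t h → IsX C4 (g a) t (g * h * g⁻¹)) ∧
      (∀ s t g h, IsX C4 a s g → IsX C4 a t h → IsX C4 a (s + t) (g * h))) ∧
    ∀ A : Subgroup (EG C4 F), IsRS C4 A ↔ ∃ a, Ex C4 a ∧ ∀ h : EG C4 F, h ∈ A ↔ ∃ t, IsX C4 a t (h : Lm C4 F ≃ₗ[F] Lm C4 F) :=
  f_EXF 4 C4 F hb4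

theorem g4_TPF (F : Type) [Field F] : ∀ (a b : Lm C4 F) (m : ℤ), Tp C4 th4 a b m →
    Ex C4 a ∧ Ex C4 b ∧ (∀ k ∈ GE C4 F, Tp C4 th4 (k a) (k b) m) ∧ (∀ c c' : F, c ≠ 0 → c' ≠ 0 → Tp C4 th4 (c • a) (c' • b) m) ∧
    (m = 2 ↔ ∃ c : F, b = c • a) ∧ (fm C4 a b ≠ 0 ↔ m = -2) ∧ (m = 1 → ∃ v, fm C4 a v = 0 ∧ b = br C4 a v) ∧
    ((∀ h k : EG C4 F, (∃ t, IsX C4 a t (h : Lm C4 F ≃ₗ[F] Lm C4 F)) → (∃ t, IsX C4 b t (k : Lm C4 F ≃ₗ[F] Lm C4 F)) → h * k = k * h) ↔ 0 ≤ m) :=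
  f_TPF 4 C4 F th4 th4_root hb4

theorem g4_NBR : ∀ α α' β, ip C4 α α = 2 → ip C4 α' α' = 2 → ip C4 β β = 2 → ∃ β', ip C4 β' β' = 2 ∧ WP C4 (α, β) (α', β') :=
  (Pool.Agent.EXD.f_NBR 4 C4 1 th4 dm4 D4_IsD).2

theorem g4_TSY (F : Type) [Field F] : ∀ (a b : Lm C4 F) (m : ℤ), Tp C4 th4 a b m → Tp C4 th4 b a m :=
  Pool.Agent.EXD.f_TSY 4 C4 F 1 th4 dm4 D4_IsD

theorem g4_PCL (F : Type) [Field F] : ∀ a b : Lm C4 F, Ex C4 a → Ex C4 b → ∃ m, -2 ≤ m ∧ m ≤ 2 ∧ Tp C4 th4 a b m :=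
  Pool.Agent.EXD.f_PCL 4 C4 F 1 th4 dm4 D4_IsD

theorem g4_FIX (F : Type) [Field F] : (∀ x : MulAut (EG C4 F), (∀ a, Ex C4 a → Im C4 x a a) → x = 1) ∧ ∀ z : EG C4 F, (∀ g, z * g = g * z) → z = 1 :=
  Pool.Agent.EXD.f_FIX 4 C4 F 1 th4 dm4 D4_IsD

theorem g4_GEO (F : Type) [Field F] : ∀ x : MulAut (EG C4 F), RA C4 x → x ≠ 1 → ∃ a a' : Lm C4 F, ∃ m : ℤ, Ex C4 a ∧ Ex C4 a' ∧ Im C4 x a a' ∧
    Tp C4 th4 a a' m ∧ (m = -2 ∨ m = -1 ∨ m = 0) :=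
  Pool.Agent.EXD.f_GEO 4 C4 F 1 th4 dm4 D4_IsD

theorem g4_ARA (F : Type) [Field F] [Finite F] : ∀ x : MulAut (EG C4 F), RA C4 x :=
  Pool.Agent.EXD.f_ARA 4 C4 F 1 th4 dm4 D4_IsD

/-- the chosen root elements `XG C4 α t` -/
theorem g_XG (K : Type) [Field K] (α : Fin 4 → ℤ) (hα : ip C4 α α = 2) (t : K) :
    IsX C4 (E C4 α) t (XG C4 α t) ∧ XG C4 α t ∈ GE C4 K ∧ (XG C4 α t)⁻¹ = XG C4 α (-t) :=
  T11XGS f_EXF f_XAU 4 C4 K hb4 α hα t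

theorem g_XRL : T11XRL_stmt := T11XRL f_ACT

theorem g_FML : T11FML_stmt := T11FML

theorem g_SGL : T11SGL_stmt := T11SGL f_EXF f_COL f_ACT f_XAU

theorem g_GR2 : T11GR2_stmt := T11GR2

/-! ## A. Roots, pairs, groups -/

/-- **RL4** (short-medium). The list of the roots. The 24 vectors are closed under `rf C4 i` (`decide +kernel`) and contain `sr 0`; by `f_DOM` (`J = univ`, `D4_con`) every root is obtained from `sr 0` by reflections (as row LST of project EXT, `Pool/Agent/helper43/EXT/LST.lean`). -/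
def RL4_stmt : Prop := ∀ v : Fin 4 → ℤ, ip C4 v v = 2 → ∃ k, v = lt4 k

/-- **TO4** (short-medium). The torus elements, general `C` (as row TOR of project EXT, `Pool/Agent/helper36/EXT/TOR.lean`, without `τ`). `n(t) = x_α(t) x_{-α}(1/t) x_α(t)`, `h = n(t) n(1)⁻¹` or `n(t) n(-1)`: `h (E γ) = t^(γ,α) E γ` (`f_ACT`; adjust the exponent by replacing `t` by `1/t`). -/
def TO4_stmt : Prop := ∀ (n : ℕ) (C : Matrix (Fin n) (Fin n) ℤ) [IsC C] (F : Type) [Field F], (∀ α, ip C α α = 2 → ∃ β, ip C β β = 2 ∧ ip C α β = -1) →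
  ∀ α, ip C α α = 2 → ∀ t : F, t ≠ 0 → ∃ h ∈ GE C F, ∀ γ, ip C γ γ = 2 → h (E C γ) = (t ^ (ip C γ α)) • (E C γ : Lm C F)

/-- **PR4** (medium). uses: RL4, TO4. Representatives of the pairs. `k a = c E θ`, `k b = c' E β`, `(θ, β) = m`. RL4 and a finite check: every root `β ≠ θ` is moved to exactly one `bt4 j` with the same product by a product of a subset of the commuting reflections at the nodes 0, 2, 3, which fix `θ` (`decide +kernel` over `lt4 k` and the 8 subsets;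
`β = lt4 k`; `β = θ` iff `m = 2`). So `WP C4 (θ, β) (θ, bt4 j)`, `f_WPG`: `E θ ↦ ± E θ`, `E β ↦ ± E (bt4 j)`. TO4 with `α = α₁ = sr 1` (`(θ, α₁) = 1`) and `t` the inverse of the scalar of `E θ` makes this scalar `1`. -/
def PR4_stmt : Prop := ∀ (F : Type) [Field F] (a b : Lm C4 F) (m : ℤ), Tp C4 th4 a b m → m ≠ 2 →
  ∃ j : Fin 6, ip C4 th4 (bt4 j) = m ∧ ∃ g ∈ GE C4 F, ∃ κ : F, κ ≠ 0 ∧ g a = E C4 th4 ∧ g b = κ • (E C4 (bt4 j) : Lm C4 F)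

/-- **CN4** (short). uses: PR4. Opposite pairs with the same form value are conjugate. `g4_PCL`, `g4_TPF` (`fm ≠ 0` iff type `-2`); PR4: `j = 0` (`bt4_spec`), `bt4 0 = -th4`; `κ = fm (E θ) (κ E(-θ)) = fm a b` (`Au`: `g4_EXF`; `fm_E_E`). -/
def CN4_stmt : Prop := ∀ (F : Type) [Field F] (a b a' b' : Lm C4 F), Ex C4 a → Ex C4 b → Ex C4 a' → Ex C4 b' → fm C4 a b ≠ 0 → fm C4 a b = fm C4 a' b' →
  ∃ g ∈ GE C4 F, g a = a' ∧ g b = b'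

/-- **YC4** (short-medium). The element `Y = x(t) t⁻¹` (as `Pool/Agent/helper8/EXC/T11YCL.lean`, with `g4_GEO`, `g4_TSY`, `g4_TPF`, `g4_EXF`, `f_XAU`). -/
def YC4_stmt : Prop := ∀ (F : Type) [Field F] (x : MulAut (EG C4 F)), RA C4 x → x ≠ 1 → ∃ (t : EG C4 F) (a b : Lm C4 F) (m : ℤ), (m = -2 ∨ m = -1 ∨ m = 0) ∧
  Tp C4 th4 a b m ∧ Y4 a b (x t * t⁻¹)

/-- **HC4** (short; groups). Conjugates: replace `g i` by `g i * h` (as `Pool/Agent/helper42/EXT/HCJ.lean`). -/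
def HC4_stmt : Prop := ∀ (G : Type) [Group G] (r k : ℕ) (y h : G), HO r k (h * y * h⁻¹) → HO r k y

/-- **FT4** (short-medium). uses: YC4. Assembly for any `r`, `k` (as `Pool/Agent/helper29/EXT/FT7.lean`). `EG C4 F` is finite. `g4_ARA`: `RA C4 x`. YC4; `HO r k (x t * t⁻¹)` gives `g`, `Z`; `(MulAut.conj Z)^m = 1`: `Z^m` is central, so `1` (`g4_FIX`), so `r ∣ m`; `g_GR2`. -/
def FT4_stmt : Prop := ∀ (F : Type) [Field F] [Finite F] (r k : ℕ), 1 ≤ k →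
  (∀ (a b : Lm C4 F) (m : ℤ) (y : EG C4 F), (m = -2 ∨ m = -1 ∨ m = 0) → Tp C4 th4 a b m → Y4 a b y → HO r k y) →
  ∀ x : MulAut (EG C4 F), x ≠ 1 → 2 * k ∈ Pool.Agent.GS.CSet r x

/-! ## B. The 28-dimensional module -/

/-- **LA4** (medium). The letters on `em4 h v` (as `Pool/Agent/helper48/EXC/T11LA8.lean`): `xe` is additive and linear; `f_ACT`: `(h, 0) ↦ (h, 0) - t α(h) E α` (`ev C4 α h = ∑ ec4 k i h_i`, `ec4_spec`), `E(-α) ↦ E(-α) - t ht α + t² E α` (`lt4 (k + 12) = -lt4 k`), `E β ↦ E β` for `(α, β) ≥ 0`, `E β ↦ E β + t ε E(α+β)` for `(α, β) = -1`.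
For the coefficient at `lt4 j` compare: `j = k`, or `lt4 j = α + lt4 m` with `(α, lt4 m) = -1` (`tb4_spec`, `lt4_inj`); the sum over the sources `m` with product `-1` is reindexed by `j` (or compare `cf` at `lt4 j` and the `h`-part by `Lm_ext`; RL4 may be used: `hRL4`). -/
def LA4_stmt : Prop := ∀ (K : Type) [Field K] (k : Fin 24) (t : K) (h : Fin 4 → K) (v : Fin 24 → K),
  xe C4 (E C4 (lt4 k)) t (em4 h v) = em4 (st4 k t (h, v)).1 (st4 k t (h, v)).2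

/-- **EM4** (short). The coordinates are unique (`cf` at `lt4 i`, `lt4_inj`; first component). -/
def EM4_stmt : Prop := ∀ (K : Type) [Field K] (h h' : Fin 4 → K) (v v' : Fin 24 → K), em4 h v = em4 h' v' → h = h' ∧ v = v'

/-- **WA4** (medium). uses: LA4. Words (as `Pool/Agent/helper89/EXT/WA7.lean`). `gw4 χ c l ∈ GE` (`g_XG`), inverse, products, action on `ez4` (induction on `l`): the letter `x_α(t c^χ(α))`, `α = lt4 k`, maps `ez4 χ c s` to `ez4 χ c (sz4 k t s)`: LA4 and `cv4 χ` additive: `h`-part: `c^χ(α) c^χ(-α) = 1`; `j = k`: `t² c^(2χ(α)) c^χ(-α)`;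
`lt4 j = α + lt4 m`: `c^χ(α) c^χ(lt4 m) = c^χ(lt4 j)` (`zpow_add₀`). `sz4` is `st4` over `ℤ` (`tb4_diag`: `(tb4 k k).1 = k + 12`; unfold the matches with `obtain ⟨m, ε⟩ := tb4 k j` / `Prod`-eta). -/
def WA4_stmt : Prop := ∀ (K : Type) [Field K] (χ : Fin 4 → ℤ) (c : K), c ≠ 0 → ∀ l l' : List (Fin 24 × ℤ),
  gw4 χ c l ∈ GE C4 K ∧ gw4 χ c (wi4 l) = (gw4 χ c l)⁻¹ ∧ gw4 χ c (l ++ l') = gw4 χ c l * gw4 χ c l' ∧
  ∀ s : (Fin 4 → ℤ) × (Fin 24 → ℤ), gw4 χ c l (ez4 χ c s) = ez4 χ c (az4 l s)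

/-- **OR4** (short-medium). uses: WA4, EM4. The order (as `Pool/Agent/helper92/EXT/OR7.lean`). `w = ez4 χ c e4v`: `Z^r w = w`, `Z w ≠ w` (a coordinate differs by `± c^..`, resp. `± 1`); `r` prime, `Z^N = 1`: if `r ∤ N` then `Z w = w` (`Function.minimalPeriod`). -/
def OR4_stmt : Prop := ∀ (K : Type) [Field K] (χ : Fin 4 → ℤ) (c : K), c ≠ 0 → ∀ (r : ℕ) (l : List (Fin 24 × ℤ)), r.Prime → (az4 l)^[r] e4v = e4v →
  (∃ i, co4 (az4 l e4v) i - co4 e4v i = 1 ∨ co4 (az4 l e4v) i - co4 e4v i = -1) → ∀ N : ℕ, (gw4 χ c l) ^ N = 1 → r ∣ N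

/-! ## C. Types `-1` and `0` -/

/-- **Z4G** (medium). uses: WA4, OR4, HC4. General form (as `Pool/Agent/helper47/EXT/Z7G.lean`). `c = k₀ κ`. `y' = g y g⁻¹ = x_{E θ}(1) x_{κ E δ}(1)` (conjugation: `g4_EXF`; root elements are determined by `IsX`; scalars: `xe (κ • a) t = xe a (κ t)`, `f_XAU`) is `gw4 χ c [(11, 1), (d, k₀)]` (`lt4_th`: `lt4 11 = th4`; `c^0 = 1`, `k₀ c^1 = κ`).
`Z` is the product of the `h y' h⁻¹`, `h = gw4 χ c w`, `w ∈ hs`: it is `gw4 χ c (cw4 [(11, 1), (d, k₀)] hs)` (induction on `hs`, WA4), OR4; closure: `Subgroup.list_prod_mem`; `g i` is given by the `i`-th word. HC4. -/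
def Z4G_stmt : Prop := ∀ (F : Type) [Field F] (d : Fin 24) (k₀ : ℤ) (χ : Fin 4 → ℤ) (r : ℕ) (hs : List (List (Fin 24 × ℤ))), (k₀ = 1 ∨ k₀ = -1) →
  cv4 χ th4 = 0 → cv4 χ (lt4 d) = 1 → r.Prime → (az4 (cw4 [(11, 1), (d, k₀)] hs))^[r] e4v = e4v →
  (∃ i, co4 (az4 (cw4 [(11, 1), (d, k₀)] hs) e4v) i - co4 e4v i = 1 ∨ co4 (az4 (cw4 [(11, 1), (d, k₀)] hs) e4v) i - co4 e4v i = -1) →
  ∀ (a b : Lm C4 F) (y : EG C4 F) (κ : F), κ ≠ 0 → (∃ g ∈ GE C4 F, g a = E C4 th4 ∧ g b = κ • (E C4 (lt4 d) : Lm C4 F)) → Ex C4 a → Ex C4 b →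
  Y4 a b y → HO r hs.length y

/-- **Z4A** (short). uses: PR4, Z4G. PR4: `j ∈ {1}` (`m = -1`) or `{2, 3, 4}` (`m = 0`) (`bt4_spec`); the data `i` with `j4 i = j`, `r4 i = 7`, resp. `5`: `lt4_th`, `ch4_spec`, `zw4_r`, `zw4_1`, `hs4_len`. -/
def Z4A_stmt : Prop := ∀ (F : Type) [Field F] (a b : Lm C4 F) (m : ℤ) (y : EG C4 F), (m = -1 ∨ m = 0) → Tp C4 th4 a b m → Y4 a b y → HO 7 3 y ∧ HO 5 2 y

/-! ## D. Type `-2`, `r = 7` -/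

/-- **BX4** (medium). uses: PR4. Independent extremal `c`, `c'`: there is an extremal `b` with prescribed `fm c b = k`, `fm c' b = k'` (as `Pool/Agent/helper16/EXT/BXS.lean`). `g4_PCL`: type `m`, `m ≠ 2` (`g4_TPF`). PR4: `g c = E θ`, `g c' = κ E β₀`, `β₀ = bt4 j`; find extremal `b'` with coefficient `k` at `-θ` and `l = k'/κ` at `-β₀` (`fm_E`), then
`b = g⁻¹ b'`. Each `b'` is a product of elements `x_α(t)` (in `GE`) applied to a multiple of a root vector; use `f_ACT` (`ε = sg(..)` are the signs which occur). With `α = sr 1`, `β' = θ - sr 1`: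
`j = 5` (`β₀ = β'`): `x_α(t) (k E(-θ)) = k E(-θ) + k t ε E(-β₀)`, `t = ε l/k`.
`j = 2, 3, 4` (`β₀ = sr i`, `i = 0, 2, 3`): `η = sr 1 + sr i`: `x_{sr 1}(u) x_{η-θ}(t) E(-η)`: coefficients `t ε` at `-θ`, `u ε'` at `-sr i` (the other terms: `E(-η)`, `E(sr 1 - θ)`).
`j = 1` (`β₀ = -sr 1`): `x_θ(t) x_α(1) (k E(-θ)) = x_θ(t) (k E(-θ) + k ε E(α-θ))`: coefficients `k` at `-θ`, `k t ε ε'` at `α`.
`j = 0` (`β₀ = -θ`): `x_θ(1)(k E(-θ)) = k (E(-θ) - h_θ + E θ)`; `x_β'(c)` gives `k (E(-θ) + c ε₁ E(-α) - h_θ + c E β' + E θ)`; `x_α(1)` gives coefficient `k` at `-θ` and `k (1 + c ε₃)` at `θ`, `ε₃ = sg(α, β')`; `c = ε₃ (l/k - 1)`. -/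
def BX4_stmt : Prop := ∀ (F : Type) [Field F] (c c' : Lm C4 F), Ex C4 c → Ex C4 c' → (∀ κ : F, c' ≠ κ • c) → ∀ k k' : F, k ≠ 0 → k' ≠ 0 →
  ∃ b, Ex C4 b ∧ fm C4 c b = k ∧ fm C4 c' b = k'

/-- **TE4** (short-medium). uses: WA4. The three root elements `x_(c4 i)(1)` are the words `tw4 i` (as `Pool/Agent/helper49/EXC/T11TE8.lean`; `1^n = 1`). -/
def TE4_stmt : Prop := ∀ (F : Type) [Field F] (i : Fin 3), Ex C4 (c4 F i) ∧ IsX C4 (c4 F i) 1 (gw4 0 (1 : F) (tw4 i))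

/-- **CV4** (short-medium). The vectors `c4 i` as lists: `gw4 0 1 (wd4 i) (E base) = ls (cl4 i)` (`g_XRL` for each letter, conditions `cl4_ok`; `fin_cases i`; as `Pool/Agent/helper56/EXT/CV7.lean`), then `g_FML`, `fml4`, `cfl4`, `cl4_root`. -/
def CV4_stmt : Prop := ∀ (F : Type) [Field F], fm C4 (c4 F 0) (c4 F 1) = 1 ∧ ∀ κ κ' : F, κ' ≠ 0 → κ' • c4 F 0 ≠ κ • c4 F 2

/-- **Z42** (medium). uses: TE4, CV4, OR4, WA4, BX4. Type `-2`, `σ ≠ 0` (as `Pool/Agent/helper90/EXT/Z72.lean`; there the elements are permutations, here elements of `EG C4 F`). `T_i = x_(c4 i)(1)`; `z = T_0 T_1 T_2 = gw4 0 1 zt4`, so `z^N = 1` implies `7 ∣ N` (OR4, `zt4_7`). `s = 1 - σ`.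
`s ≠ 0`: `S = x_(s c4 0)(1)`, `T_0 = S x_((1-s) c4 0)(1)`, `y_0 = x_((1-s) c4 0)(1) T_1`, `fm = σ` (CV4). BX4 for `c4 2`, `-s c4 0` (independent by CV4): `b` with `fm (c4 2) b = σ = fm (-s c4 0) b`; `y_1 = T_2 x_b(1)`, `y_2 = x_(-s c4 0)(1) x_b(1)`: `y_1 y_2⁻¹ = T_2 S`. `z = S y_0 T_2`, so `y_0 y_1 y_2⁻¹ = S⁻¹ z S`.
`s = 0`: `y_0 = T_0 T_1`; `g_SGL` for `c4 2`: `T_2 x_a(1) = x_{a'}(1)`, `y_1 = x_{a'}(1) x_b(1)`, `y_2 = x_a(1) x_b(1)`: `y_1 y_2⁻¹ = T_2`, `y_0 y_1 y_2⁻¹ = z`. -/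
def Z42_stmt : Prop := ∀ (F : Type) [Field F] (σ : F), σ ≠ 0 → ∃ y : Fin 3 → EG C4 F,
  (∀ i, ∃ a b, Ex C4 a ∧ Ex C4 b ∧ fm C4 a b = σ ∧ Y4 a b (y i)) ∧ ∀ N : ℕ, (y 0 * y 1 * (y 2)⁻¹) ^ N = 1 → 7 ∣ N

/-- **Z4B** (short). uses: Z42, CN4. `σ = fm a b ≠ 0` (`g4_TPF`); CN4 for `(a, b)` and the pair of `y i`: `y i = g i * y * (g i)⁻¹` (conjugation of root elements: `g4_EXF`); `Z = y 0 * y 1 * (y 2)⁻¹` (as `Pool/Agent/helper68/EXT/Z7B.lean`). -/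
def Z4B_stmt : Prop := ∀ (F : Type) [Field F] (a b : Lm C4 F) (y : EG C4 F), Tp C4 th4 a b (-2) → Y4 a b y → HO 7 3 y

/-! ## E. Type `-2`, `r = 5`: the subgroup `SL₄` -/

/-- the matrix of order 5 -/
def z5 : Matrix (Fin 4) (Fin 4) ℤ := !![-1, 1, -1, 0; 1, 0, 0, -1; 1, 0, 0, 0; 0, 1, 0, 0]

/-- **M5A** (medium; Mathlib only; checked by computer). `Y = (1 + s₁ E₀₁)(1 + s₂ E₁₀)`, `κ = s₁ s₂`. Explicit matrices of determinant 1 (rows):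
`G1 = [[1/s₁, 0, -1/κ, s₁(2+κ)/κ], [0, 1, 4+κ, -s₁(3+κ)], [0,0,1,0], [0,0,0,s₁]]`, inverse `[[s₁, 0, s₁/κ, -s₁(2+κ)/κ], [0, 1, -(4+κ), 3+κ], [0,0,1,0], [0,0,0,1/s₁]]`;
`G2 = [[0,0,1/κ,0], [0,0,-1,s₁], [0,1,0,s₁/κ], [-s₂,0,1/κ,0]]`, inverse `[[s₁/κ,0,0,-s₁/κ], [-1,-1/κ,1,0], [κ,0,0,0], [s₂,1/s₁,0,0]]`;
`P = [[1,0,1,-1], [0,1,-κ,1+κ], [0,0,1,0], [0,0,0,1]]`, inverse `[[1,0,-1,1], [0,1,κ,-1-κ], [0,0,1,0], [0,0,0,1]]`. Intermediate: `G1 Y G1⁻¹ = [[1+κ,1,-3-κ,1], [κ,1,1,-2-κ], [0,0,1,0], [0,0,0,1]]`, `G2 Y G2⁻¹ = [[1,0,0,0], [0,1,0,0], [1,0,1,-1], [0,1,-κ,1+κ]]`, and `P` times their product times `P⁻¹` is `z5` (polynomial identity in `κ`). `Y = [[1+κ, s₁], [s₂, 1]] ⊕ 1`; `field_simp`, `ring` for the entries. -/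
def M5A_stmt : Prop := ∀ (F : Type) [Field F] (s1 s2 : F), s1 ≠ 0 → s2 ≠ 0 → ∀ Y : Matrix.SpecialLinearGroup (Fin 4) F,
  (Y : Matrix (Fin 4) (Fin 4) F) = (1 + Matrix.single 0 1 s1) * (1 + Matrix.single 1 0 s2) → ∃ G1 G2 P Z : Matrix.SpecialLinearGroup (Fin 4) F,
  (Z : Matrix (Fin 4) (Fin 4) F) = z5.map (Int.cast : ℤ → F) ∧ G1 * Y * G1⁻¹ * (G2 * Y * G2⁻¹) = P⁻¹ * Z * P

/-- **M5B** (short-medium; Mathlib only). `z5⁵ = 1` (over `ℤ`: `decide +kernel` or `simp`), so `Z⁵ = 1`. If `Z^N = c` is scalar and `5 ∤ N`, then `Z` is a power of `Z^N` (`Z⁵ = 1`, `5 a = N b + 1` or Bezout), so `Z` is scalar; but its entry `(1, 0)` is `1`. -/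
def M5B_stmt : Prop := ∀ (F : Type) [Field F] (Z : Matrix.SpecialLinearGroup (Fin 4) F), (Z : Matrix (Fin 4) (Fin 4) F) = z5.map (Int.cast : ℤ → F) →
  ∀ N : ℕ, (∃ c : F, ((Z ^ N : Matrix.SpecialLinearGroup (Fin 4) F) : Matrix (Fin 4) (Fin 4) F) = c • (1 : Matrix (Fin 4) (Fin 4) F)) → 5 ∣ N

/-- **C5Y** (medium). uses: PR4, M5A, M5B, HC4. Type `-2`: `HO 5 2 y`. PR4 (`j = 0`): `g a = E θ`, `g b = κ E(-θ)`. `g4_NBR`, `f_WPG` (and `f_RFL`: the product `-2` is preserved, `eq_neg_of_ip_eq_neg_two`): `E θ ↦ ± E ρ`, `E(-θ) ↦ ± E(-ρ)`, `ρ = sr 0 = Pool.Agent.EXA.ro ch3 0 1`, `-ρ = ro ch3 1 0`. So a conjugate `y'` of `y` is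
`x_ρ(t₁) x_{-ρ}(t₂)`, `t₁, t₂ ≠ 0`; by `Pool.Agent.EXA.f_RMB` it acts on the matrices (`Rm C4 ch3`) as `Y = (1 + s₁ E₀₁)(1 + s₂ E₁₀)`, `s_i = et t_i`. M5A; lifts `h₁, h₂ ∈ GE` of `G1, G2` (`EXA.f_LIF`). `Z = h₁ y' h₁⁻¹ h₂ y' h₂⁻¹` acts as `P⁻¹ z5 P` (`f_RMB`: products, inverses). `Z^N = 1`: `Rm C4 ch3 1 (P⁻¹ z5^N P)`,
so this matrix is scalar (`EXA.f_IOI`), `z5^N` is scalar, `5 ∣ N` (M5B). HC4. -/
def C5Y_stmt : Prop := ∀ (F : Type) [Field F] (a b : Lm C4 F) (y : EG C4 F), Tp C4 th4 a b (-2) → Y4 a b y → HO 5 2 y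

/-! ## F. The theorem -/

/-- **TRF** (short). uses: FT4, Z4A, Z4B, C5Y. `FT4` with `(r, k) = (5, 2)` and `(7, 3)`. -/
def TRF_stmt : Prop := ∀ (F : Type) [Field F] [Finite F] (x : MulAut (EG C4 F)), x ≠ 1 → 4 ∈ Pool.Agent.GS.CSet 5 x ∧ 6 ∈ Pool.Agent.GS.CSet 7 x

end Pool.Agent.TRI
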